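import Mathlib
import Pool.Agent.Q81.Irreg

/-!
# Orbits of frequently hypercyclic operators are irregularly visiting
-/

namespace Pool.Agent.Results.MP_60e8bf_an.EveryOrbitIrregular

open Filter Set

/-- `N_T(x, U) = {n ≥ 0 : T^n x ∈ U}`. -/
def visits {𝕜 X : Type*} [RCLike 𝕜] [NormedAddCommGroup X] [NormedSpace 𝕜 X] (T : X →L[𝕜] X)
    (x : X) (U : Set X) : Set ℕ :=
  {n | (T ^ n) x ∈ U}

/-- Lower density `liminf #(A ∩ [0, N]) / (N + 1)`. -/
noncomputable def lowerDens (A : Set ℕ) : ℝ :=
  liminf (fun N : ℕ => ((A ∩ Set.Icc 0 N).ncard : ℝ) / (N + 1)) atTop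

/-- Upper density `limsup #(A ∩ [0, N]) / (N + 1)`. -/
noncomputable def upperDens (A : Set ℕ) : ℝ :=
  limsup (fun N : ℕ => ((A ∩ Set.Icc 0 N).ncard : ℝ) / (N + 1)) atTop

/-- `x` is frequently hypercyclic for `T`. -/
def FreqHypercyclicVector {𝕜 X : Type*} [RCLike 𝕜] [NormedAddCommGroup X] [NormedSpace 𝕜 X]
    (T : X →L[𝕜] X) (x : X) : Prop :=
  ∀ U : Set X, IsOpen U → U.Nonempty → 0 < lowerDens (visits T x U)

lemma ratio_nonneg (A : Set ℕ) (N : ℕ) : (0 : ℝ) ≤ ((A ∩ Set.Icc 0 N).ncard : ℝ) / (N + 1) := by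
  positivity

lemma ratio_le_one (A : Set ℕ) (N : ℕ) : ((A ∩ Set.Icc 0 N).ncard : ℝ) / (N + 1) ≤ 1 := by
  rw [div_le_one (by positivity)]
  have h1 : (A ∩ Set.Icc 0 N).ncard ≤ (Set.Icc 0 N).ncard :=
    Set.ncard_le_ncard inter_subset_right (Set.finite_Icc _ _)
  have h2 : (Set.Icc 0 N).ncard = N + 1 := by
    rw [Set.ncard_eq_toFinset_card']; simp
  rw [h2] at h1
  exact_mod_cast h1

/-- Let `X ≠ 0` be a real or complex Banach space, `T` a bounded operator on `X` and `x` a
frequently hypercyclic vector of `T`. For every `η > 0` there is a nonempty open set `U` such that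
`N_T(x, U)` has lower density less than `η` and upper density `1`. -/
theorem result {𝕜 X : Type*} [RCLike 𝕜] [NormedAddCommGroup X] [NormedSpace 𝕜 X]
    [CompleteSpace X] [Nontrivial X] (T : X →L[𝕜] X) (x : X) (hx : FreqHypercyclicVector T x)
    (η : ℝ) (hη : 0 < η) :
    ∃ U : Set X, IsOpen U ∧ U.Nonempty ∧ lowerDens (visits T x U) < η ∧
      upperDens (visits T x U) = 1 := by
  have hd : Dense (Set.range fun n : ℕ => (T ^ n) x) := by
    rw [dense_iff_inter_open]
    intro U hU hne
    by_contra hcon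
    have hempty : visits T x U = ∅ := by
      ext n
      simp only [visits, Set.mem_empty_iff_false, iff_false]
      intro hn
      exact hcon ⟨_, hn, n, rfl⟩
    have h0 := hx U hU hne
    rw [hempty, lowerDens] at h0
    simp at h0
  obtain ⟨U, hU, hne, hlow, hup⟩ := Q81.Irreg.main T x hd (η := η / 2) (by positivity)
  refine ⟨U, hU, hne, ?_, ?_⟩
  · have h1 : lowerDens (visits T x U) ≤ η / 2 := by
      refine Filter.liminf_le_of_frequently_le ?_ ?_
      · refine hlow.mono fun N hN => ?_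
        rw [div_le_iff₀ (by positivity)]
        exact hN
      · exact isBoundedUnder_of ⟨0, fun N => ratio_nonneg _ N⟩
    linarith
  · apply le_antisymm
    · refine Filter.limsup_le_of_le ?_ (Filter.Eventually.of_forall fun N => ratio_le_one _ N)
      exact (isBoundedUnder_of ⟨0, fun N => ratio_nonneg _ N⟩ :
        IsBoundedUnder (· ≥ ·) atTop _).isCoboundedUnder_le
    · refine le_of_forall_lt fun c hc => ?_
      obtain ⟨c', hc1, hc2⟩ := exists_between hc
      refine lt_of_lt_of_le hc1 ?_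
      refine Filter.le_limsup_of_frequently_le ?_ ?_
      · refine (hup c' hc2).mono fun N hN => ?_
        rw [le_div_iff₀ (by positivity)]
        exact hN
      · exact isBoundedUnder_of ⟨1, fun N => ratio_le_one _ N⟩

end Pool.Agent.Results.MP_60e8bf_an.EveryOrbitIrregular
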